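import Mathlib
import Pool.Agent.TH249.Stmt

/-!
Finite powers of a C*-algebra and a cyclic automorphism built from an automorphism of the factor.
-/

set_option autoImplicit false

noncomputable section

namespace Pool.Agent.Y25.PiK0

open Matrix Pool.Agent.TH249

section pow

variable {A : Type} [CStarAlgebra A]

/-- powers of a *-endomorphism -/
def pw (f : A →⋆ₐ[ℂ] A) : ℕ → (A →⋆ₐ[ℂ] A)
  | 0 => StarAlgHom.id ℂ A
  | n + 1 => f.comp (pw f n)

lemma pw_apply (f : A →⋆ₐ[ℂ] A) (n : ℕ) (a : A) : pw f n a = (f : A → A)^[n] a := by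
  induction n with
  | zero => rfl
  | succ n ih =>
    rw [Function.iterate_succ_apply', ← ih]
    rfl

lemma K0_pw (f : A →⋆ₐ[ℂ] A) (n : ℕ) (x : K0 A) :
    K0.map (pw f n) x = (fun y => K0.map f y)^[n] x := by
  induction n with
  | zero => exact K0.map_id x
  | succ n ih =>
    rw [Function.iterate_succ_apply', ← ih, K0.map_comp]
    rfl

end pow

variable {A : Type} [CStarAlgebra A] {n : ℕ}

/-- the coordinates -/
def prj (i : Fin n) : (Fin n → A) →⋆ₐ[ℂ] A where
  toFun b := b i
  map_one' := rfl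
  map_mul' _ _ := rfl
  map_zero' := rfl
  map_add' _ _ := rfl
  commutes' _ := rfl
  map_star' _ := rfl

@[simp] lemma prj_apply (i : Fin n) (b : Fin n → A) : prj i b = b i := rfl

/-- the diagonal -/
def dia (n : ℕ) : A →⋆ₐ[ℂ] (Fin n → A) where
  toFun a := fun _ => a
  map_one' := rfl
  map_mul' _ _ := rfl
  map_zero' := rfl
  map_add' _ _ := rfl
  commutes' _ := rfl
  map_star' _ := rfl

@[simp] lemma dia_apply (a : A) (i : Fin n) : dia n a i = a := rfl

/-- the predecessor in the cyclic order -/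
def pd (i : Fin n) : Fin n := ⟨if (i : ℕ) = 0 then n - 1 else i - 1, by
  have := i.2
  split_ifs <;> omega⟩

/-- the cyclic endomorphism -/
def cyc (n : ℕ) (f : A →⋆ₐ[ℂ] A) : (Fin n → A) →⋆ₐ[ℂ] (Fin n → A) where
  toFun b := fun i => if (i : ℕ) = 0 then f (b (pd i)) else b (pd i)
  map_one' := by
    funext i
    simp
  map_mul' x y := by
    funext i
    by_cases h : (i : ℕ) = 0 <;> simp [h]
  map_zero' := by
    funext i
    simp
  map_add' x y := by
    funext i
    by_cases h : (i : ℕ) = 0 <;> simp [h]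
  commutes' c := by
    funext i
    by_cases h : (i : ℕ) = 0
    · simp only [h, if_true]
      exact f.commutes' c
    · simp only [h, if_false]
      rfl
  map_star' x := by
    funext i
    by_cases h : (i : ℕ) = 0 <;> simp [h, map_star]

lemma cyc_apply (f : A →⋆ₐ[ℂ] A) (b : Fin n → A) (i : Fin n) :
    cyc n f b i = if (i : ℕ) = 0 then f (b (pd i)) else b (pd i) := rfl

lemma cyc_pw (f : A →⋆ₐ[ℂ] A) (b : Fin n → A) (j : ℕ) (hj : j ≤ n) (i : Fin n) :
    pw (cyc n f) j b i = if h : (i : ℕ) < j then f (b ⟨(i : ℕ) + n - j, by omega⟩)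
      else b ⟨(i : ℕ) - j, by have := i.2; omega⟩ := by
  induction j generalizing i with
  | zero => simp [pw]
  | succ j ih =>
    show cyc n f (pw (cyc n f) j b) i = _
    rw [cyc_apply]
    have hi := i.2
    by_cases h0 : (i : ℕ) = 0
    · rw [if_pos h0, ih (by omega), dif_neg (by simp [pd, h0]; omega), dif_pos (by omega)]
      congr 2
      apply Fin.ext
      simp [pd, h0]
      omega
    · rw [if_neg h0, ih (by omega)]
      by_cases h1 : (i : ℕ) < j + 1
      · rw [dif_pos (by simp [pd, h0]; omega), dif_pos h1]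
        congr 2
        apply Fin.ext
        simp [pd, h0]
        omega
      · rw [dif_neg (by simp [pd, h0]; omega), dif_neg h1]
        congr 1
        apply Fin.ext
        simp [pd, h0]
        omega

lemma cyc_n (f : A →⋆ₐ[ℂ] A) (b : Fin n → A) (i : Fin n) :
    pw (cyc n f) n b i = f (b i) := by
  rw [cyc_pw f b n le_rfl i, dif_pos i.2]
  congr 2
  apply Fin.ext
  simp

lemma pw_add {B : Type} [CStarAlgebra B] (f : B →⋆ₐ[ℂ] B) (m l : ℕ) (x : B) :
    pw f (m + l) x = pw f m (pw f l x) := by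
  rw [pw_apply, pw_apply, pw_apply, Function.iterate_add_apply]

lemma cyc_qn (f : A →⋆ₐ[ℂ] A) (q : ℕ) (b : Fin n → A) (i : Fin n) :
    pw (cyc n f) (n * q) b i = pw f q (b i) := by
  induction q with
  | zero => rfl
  | succ q ih =>
    rw [Nat.mul_succ, Nat.add_comm, pw_add, cyc_n, ih]
    rfl

/-- coordinatewise equivalences -/
lemma eqv_pi {I : Type} [Fintype I] {P Q : Matrix I I (Fin n → A)}
    (h : ∀ i : Fin n, Eqv (P.map (prj i)) (Q.map (prj i))) : Eqv P Q := by
  choose v h1 h2 using h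
  refine ⟨Matrix.of fun a b i => v i a b, ?_, ?_⟩
  · ext a b i
    have h3 := congrFun (congrFun (h1 i) a) b
    rw [Matrix.mul_apply] at h3
    rw [Matrix.mul_apply, Finset.sum_apply]
    exact h3
  · ext a b i
    have h3 := congrFun (congrFun (h2 i) a) b
    rw [Matrix.mul_apply] at h3
    rw [Matrix.mul_apply, Finset.sum_apply]
    exact h3

/-- the cyclic automorphism -/
def cycE (n : ℕ) (φ : A ≃⋆ₐ[ℂ] A) : (Fin n → A) ≃⋆ₐ[ℂ] (Fin n → A) :=
  StarAlgEquiv.ofBijective (cyc n (φ : A →⋆ₐ[ℂ] A)) (by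
    have hinj : Function.Injective (pw (cyc n (φ : A →⋆ₐ[ℂ] A)) n) := by
      intro x y hxy
      funext i
      have h1 := congrFun hxy i
      rw [cyc_n, cyc_n] at h1
      exact φ.injective h1
    have hsur : Function.Surjective (pw (cyc n (φ : A →⋆ₐ[ℂ] A)) n) := by
      intro y
      refine ⟨fun i => φ.symm (y i), ?_⟩
      funext i
      rw [cyc_n]
      exact φ.apply_symm_apply _
    rcases Nat.eq_zero_or_pos n with rfl | hn
    · exact ⟨fun x y _ => Subsingleton.elim _ _, fun y => ⟨y, Subsingleton.elim _ _⟩⟩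
    · obtain ⟨m, rfl⟩ : ∃ m, n = m + 1 := ⟨n - 1, by omega⟩
      constructor
      · intro x y hxy
        apply hinj
        have h1 : ∀ z, pw (cyc (m + 1) (φ : A →⋆ₐ[ℂ] A)) (m + 1) z =
            pw (cyc (m + 1) (φ : A →⋆ₐ[ℂ] A)) m (cyc (m + 1) (φ : A →⋆ₐ[ℂ] A) z) := by
          intro z
          rw [pw_add]
          rfl
        rw [h1, h1, hxy]
      · intro y
        obtain ⟨x, hx⟩ := hsur y
        exact ⟨_, hx⟩)

lemma cycE_coe (n : ℕ) (φ : A ≃⋆ₐ[ℂ] A) :
    ((cycE n φ : (Fin n → A) ≃⋆ₐ[ℂ] (Fin n → A)) : (Fin n → A) →⋆ₐ[ℂ] (Fin n → A)) =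
      cyc n (φ : A →⋆ₐ[ℂ] A) := by
  ext x
  rfl

/-- finite powers of AF algebras are AF -/
lemma isAF_pi (n : ℕ) (hA : IsAF A) : IsAF (Fin n → A) := by
  obtain ⟨hs, F, hm, hf, hd⟩ := hA
  refine ⟨inferInstance, fun m =>
    { carrier := {b | ∀ i, b i ∈ F m}
      mul_mem' := fun {x y} hx hy i => (F m).mul_mem (hx i) (hy i)
      one_mem' := fun i => (F m).one_mem
      add_mem' := fun {x y} hx hy i => (F m).add_mem (hx i) (hy i)
      zero_mem' := fun i => (F m).zero_mem
      algebraMap_mem' := fun c i => (F m).algebraMap_mem c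
      star_mem' := fun {x} hx i => star_mem (hx i) }, ?_, ?_, ?_⟩
  · intro m m' h b hb i
    exact hm h (hb i)
  · intro m
    have := hf m
    refine FiniteDimensional.of_injective (K := ℂ)
      (f := ({ toFun := fun b i => ⟨b.1 i, b.2 i⟩
               map_add' := fun _ _ => rfl
               map_smul' := fun _ _ => rfl } : _ →ₗ[ℂ] (Fin n → F m))) ?_
    intro x y hxy
    apply Subtype.ext
    funext i
    exact congrArg Subtype.val (congrFun hxy i)
  · rw [Metric.dense_iff]
    intro b ε hε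
    have h1 : ∀ i, ∃ m, ∃ a ∈ F m, dist a (b i) < ε := by
      intro i
      obtain ⟨a, ha, ham⟩ := (Metric.dense_iff.1 hd) (b i) ε hε
      obtain ⟨m, hm⟩ := Set.mem_iUnion.1 ham
      exact ⟨m, a, hm, ha⟩
    choose m a ha hab using h1
    refine ⟨a, ?_, Set.mem_iUnion.2 ⟨Finset.univ.sup m, fun i => ?_⟩⟩
    · rw [Metric.mem_ball, dist_pi_lt_iff hε]
      exact hab
    · exact hm (Finset.le_sup (Finset.mem_univ i)) (ha i)

end Pool.Agent.Y25.PiK0
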