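import Mathlib
import Pool.Agent.Y25.PiK0

/-!
From one automorphism without lift of order four to automorphisms of order `4 n` without lift.
-/

set_option autoImplicit false

noncomputable section

namespace Pool.Agent.Y25.PiK0

open Matrix Pool.Agent.TH249

/-- the properties of an automorphism of a C*-algebra used below -/
structure Obs (A : Type) [CStarAlgebra A] (Φ : A ≃⋆ₐ[ℂ] A) : Prop where
  four : ∀ (m : ℕ) (P : Matrix (Fin m) (Fin m) A), IsPrj P →
    Eqv P (P.map (pw (Φ : A →⋆ₐ[ℂ] A) 4))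
  ne : ∀ k : ℕ, 0 < k → k < 4 → ¬ ∀ x : K0 A, K0.map (pw (Φ : A →⋆ₐ[ℂ] A) k) x = x
  nolift : ∀ φ : A ≃⋆ₐ[ℂ] A,
    (∀ x, K0.map (φ : A →⋆ₐ[ℂ] A) x = K0.map (Φ : A →⋆ₐ[ℂ] A) x) →
      ¬ ∀ a, φ (φ (φ (φ a))) = a
  zero : ∀ (p : A) (hp : IsStarProjection p),
    K0.cls (Prj.of p hp) = K0.cls (Prj.of (0 : A) (IsStarProjection.zero A)) → p = 0
  nontriv : (1 : A) ≠ 0

lemma isScaled_congr {B : Type} [CStarAlgebra B] (Ψ : B ≃⋆ₐ[ℂ] B) :
    IsScaled (K0.congr Ψ : K0Aut B) := by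
  refine ⟨?_, ?_⟩
  · refine Set.Subset.antisymm ?_ ?_
    · rintro _ ⟨x, hx, rfl⟩
      exact K0.map_mem_pos _ hx
    · intro x hx
      refine ⟨(K0.congr Ψ).symm x, ?_, (K0.congr Ψ).apply_symm_apply x⟩
      exact K0.map_mem_pos (Ψ.symm : B →⋆ₐ[ℂ] B) hx
  · refine Set.Subset.antisymm ?_ ?_
    · rintro _ ⟨x, hx, rfl⟩
      exact K0.map_mem_scale _ hx
    · intro x hx
      refine ⟨(K0.congr Ψ).symm x, ?_, (K0.congr Ψ).apply_symm_apply x⟩
      exact K0.map_mem_scale (Ψ.symm : B →⋆ₐ[ℂ] B) hx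

lemma fn_iterate {B : Type} [CStarAlgebra B] (Ψ : B ≃⋆ₐ[ℂ] B) (k : ℕ) (x : K0 B) :
    (K0Aut.fn (K0.congr Ψ : K0Aut B))^[k] x = K0.map (pw (Ψ : B →⋆ₐ[ℂ] B) k) x := by
  rw [K0_pw]
  rfl

variable {A : Type} [CStarAlgebra A] {Φ : A ≃⋆ₐ[ℂ] A}

/-- the central projection of the first coordinate -/
def e0 (A : Type) [CStarAlgebra A] (n : ℕ) : Fin n → A := fun i => if (i : ℕ) = 0 then 1 else 0

lemma e0_proj (n : ℕ) : IsStarProjection (e0 A n) := by
  refine ⟨?_, ?_⟩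
  · funext i
    by_cases h : (i : ℕ) = 0 <;> simp [e0, h]
  · funext i
    by_cases h : (i : ℕ) = 0 <;> simp [e0, h]

theorem order_cyc (h : Obs A Φ) {n : ℕ} (hn : 0 < n) :
    HasOrder (K0Aut.fn (K0.congr (cycE n Φ) : K0Aut (Fin n → A))) (n * 4) := by
  refine ⟨?_, ?_⟩
  · funext x
    rw [fn_iterate, cycE_coe]
    obtain ⟨P, Q, rfl⟩ := K0.exists_sub x
    have key : ∀ P : Prj (Fin n → A),
        K0.map (pw (cyc n (Φ : A →⋆ₐ[ℂ] A)) (n * 4)) (K0.cls P) = K0.cls P := by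
      intro P
      rw [K0.map_cls]
      unfold K0.cls
      congr 1
      rw [V.mk_eq]
      refine Eqv.symm (eqv_pi fun i => ?_)
      have h1 := h.four P.n (P.mat.map (prj i)) (P.isPrj.map (prj i))
      have h2 : (P.mat.map (pw (cyc n (Φ : A →⋆ₐ[ℂ] A)) (n * 4))).map (prj i) =
          (P.mat.map (prj i)).map (pw (Φ : A →⋆ₐ[ℂ] A) 4) := by
        ext a b
        show pw (cyc n (Φ : A →⋆ₐ[ℂ] A)) (n * 4) (P.mat a b) i = _
        rw [cyc_qn]
        rfl
      show Eqv (P.mat.map (prj i)) ((P.mat.map (pw (cyc n (Φ : A →⋆ₐ[ℂ] A)) (n * 4))).map (prj i))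
      rw [h2]
      exact h1
    rw [map_sub, key, key]
    rfl
  · intro k hk1 hk2 hk
    have hall : ∀ x : K0 (Fin n → A), K0.map (pw (cyc n (Φ : A →⋆ₐ[ℂ] A)) k) x = x := by
      intro x
      rw [← cycE_coe, ← fn_iterate, hk]
      rfl
    have hkn : k = n * (k / n) + k % n := (Nat.div_add_mod k n).symm
    have hr := Nat.mod_lt k hn
    have hcoord : ∀ b : Fin n → A, pw (cyc n (Φ : A →⋆ₐ[ℂ] A)) k b ⟨0, hn⟩ =
        pw (Φ : A →⋆ₐ[ℂ] A) (k / n) (pw (cyc n (Φ : A →⋆ₐ[ℂ] A)) (k % n) b ⟨0, hn⟩) := by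
      intro b
      conv_lhs => rw [hkn]
      rw [pw_add, cyc_qn]
    rcases Nat.eq_zero_or_pos (k % n) with h0 | h0
    · -- a multiple of `n`
      have hq1 : 0 < k / n := by
        rcases Nat.eq_zero_or_pos (k / n) with h1 | h1
        · rw [h0, h1] at hkn
          omega
        · exact h1
      have hq2 : k / n < 4 := by
        rw [Nat.div_lt_iff_lt_mul hn]
        omega
      refine h.ne (k / n) hq1 hq2 fun x => ?_
      have h1 := congrArg (K0.map (prj ⟨0, hn⟩)) (hall (K0.map (dia n) x))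
      rw [K0.map_comp, K0.map_comp, K0.map_comp] at h1
      have h2 : ((prj (⟨0, hn⟩ : Fin n)).comp (pw (cyc n (Φ : A →⋆ₐ[ℂ] A)) k)).comp (dia n) =
          pw (Φ : A →⋆ₐ[ℂ] A) (k / n) := by
        ext a
        show pw (cyc n (Φ : A →⋆ₐ[ℂ] A)) k (dia n a) ⟨0, hn⟩ = _
        rw [hcoord, h0]
        rfl
      have h3 : (prj (⟨0, hn⟩ : Fin n)).comp (dia n) = StarAlgHom.id ℂ A := by
        ext a
        rfl
      rw [h2, h3, K0.map_id] at h1
      exact h1
    · -- not a multiple of `n`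
      have h1 := congrArg (K0.map (prj ⟨0, hn⟩)) (hall (K0.cls (Prj.of (e0 A n) (e0_proj n))))
      rw [K0.map_cls, K0.map_cls, K0.map_cls, Prj.map_of, Prj.map_of, Prj.map_of] at h1
      have h2 : prj (⟨0, hn⟩ : Fin n) (pw (cyc n (Φ : A →⋆ₐ[ℂ] A)) k (e0 A n)) = 0 := by
        rw [prj_apply, hcoord, cyc_pw _ _ _ hr.le, dif_pos h0]
        have h3 : ∀ (l : ℕ) (hl : l < n), l ≠ 0 → e0 A n ⟨l, hl⟩ = 0 := fun l hl hl0 => if_neg hl0
        rw [h3 _ _ (by show 0 + n - k % n ≠ 0; omega), map_zero, map_zero]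
      have h5 : prj (⟨0, hn⟩ : Fin n) (e0 A n) = 1 := rfl
      have h6 : K0.cls (Prj.of (1 : A) (IsStarProjection.one A)) =
          K0.cls (Prj.of (0 : A) (IsStarProjection.zero A)) := by
        have aux : ∀ {p p' r r' : A} (hp : IsStarProjection p) (hp' : IsStarProjection p')
            (hr : IsStarProjection r) (hr' : IsStarProjection r'), p = p' → r = r' →
            K0.cls (Prj.of p hp) = K0.cls (Prj.of r hr) →
            K0.cls (Prj.of p' hp') = K0.cls (Prj.of r' hr') := by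
          rintro p p' r r' hp hp' hr hr' rfl rfl h
          exact h
        exact (aux _ _ _ _ h2 h5 h1).symm
      exact h.nontriv (h.zero 1 _ h6)

theorem nolift_cyc (h : Obs A Φ) {n : ℕ} (hn : 0 < n) (φ : StarAut (Fin n → A))
    (hφ : Induces φ (K0.congr (cycE n Φ) : K0Aut (Fin n → A))) :
    (StarAut.fn φ)^[n * 4] ≠ id := by
  intro hid
  set f : (Fin n → A) →⋆ₐ[ℂ] (Fin n → A) := StarAut.toHom φ with hf
  set F : (Fin n → A) →⋆ₐ[ℂ] (Fin n → A) := pw f n with hF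
  have hF4 : ∀ x, pw F 4 x = x := by
    intro x
    have h1 : ((fun x => f x) : (Fin n → A) → (Fin n → A))^[n * 4] x = x := congrFun hid x
    rw [Function.iterate_mul] at h1
    rw [pw_apply]
    have h2 : (F : (Fin n → A) → (Fin n → A)) = (fun x => f x)^[n] := by
      funext y
      exact pw_apply f n y
    rw [h2]
    exact h1
  have hKf : ∀ x, K0.map f x = K0.map (cyc n (Φ : A →⋆ₐ[ℂ] A)) x := by
    intro x
    exact hφ x
  have hKF : ∀ x, K0.map F x = K0.map (pw (cyc n (Φ : A →⋆ₐ[ℂ] A)) n) x := by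
    intro x
    rw [hF, K0_pw, K0_pw]
    have : (fun y => K0.map f y) = fun y => K0.map (cyc n (Φ : A →⋆ₐ[ℂ] A)) y := funext hKf
    rw [this]
  let i0 : Fin n := ⟨0, hn⟩
  -- `F` preserves the first coordinate
  have hF0 : F (1 - e0 A n) i0 = 0 := by
    have hp : IsStarProjection (1 - e0 A n) := (e0_proj n).one_sub
    have h1 := congrArg (K0.map (prj i0)) (hKF (K0.cls (Prj.of _ hp)))
    rw [K0.map_cls, K0.map_cls, K0.map_cls, K0.map_cls, Prj.map_of, Prj.map_of, Prj.map_of,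
      Prj.map_of] at h1
    have h2 : prj i0 (pw (cyc n (Φ : A →⋆ₐ[ℂ] A)) n (1 - e0 A n)) = 0 := by
      rw [prj_apply, cyc_n]
      have h3 : (1 - e0 A n) i0 = 0 := by
        show (1 : A) - 1 = 0
        exact sub_self _
      rw [h3, map_zero]
    have aux : ∀ {p r r' : A} (hp : IsStarProjection p)
        (hr : IsStarProjection r) (hr' : IsStarProjection r'), r = r' →
        K0.cls (Prj.of p hp) = K0.cls (Prj.of r hr) →
        K0.cls (Prj.of p hp) = K0.cls (Prj.of r' hr') := by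
      rintro p r r' hp hr hr' rfl h
      exact h
    exact h.zero _ _ (aux _ _ (IsStarProjection.zero A) h2 h1)
  have hloc : ∀ x y : Fin n → A, x i0 = y i0 → F x i0 = F y i0 := by
    intro x y hxy
    have h1 : (x - y) = (x - y) * (1 - e0 A n) := by
      funext i
      by_cases hi : (i : ℕ) = 0
      · have : i = i0 := Fin.ext hi
        subst this
        show x i0 - y i0 = (x i0 - y i0) * _
        rw [hxy, sub_self, zero_mul]
      · show x i - y i = (x i - y i) * (1 - (if (i : ℕ) = 0 then 1 else 0))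
        rw [if_neg hi, sub_zero, mul_one]
    have h2 : F (x - y) i0 = 0 := by
      rw [h1, map_mul]
      show F (x - y) i0 * F (1 - e0 A n) i0 = 0
      rw [hF0, mul_zero]
    rw [map_sub] at h2
    exact sub_eq_zero.1 h2
  let g : A →⋆ₐ[ℂ] A := (prj i0).comp (F.comp (dia n))
  have hg : ∀ (m : ℕ) (a : A), pw g m a = pw F m (dia n a) i0 := by
    intro m a
    induction m with
    | zero => rfl
    | succ m ih =>
      show g (pw g m a) = F (pw F m (dia n a)) i0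
      rw [ih]
      exact hloc _ _ rfl
  have hg4 : ∀ a, g (g (g (g a))) = a := by
    intro a
    have h1 := hg 4 a
    rw [hF4] at h1
    exact h1
  let φg : A ≃⋆ₐ[ℂ] A := StarAlgEquiv.ofBijective g
    ⟨fun x y hxy => by
      have h1 : g (g (g (g x))) = g (g (g (g y))) := by rw [hxy]
      rw [hg4, hg4] at h1
      exact h1, fun y => ⟨g (g (g y)), hg4 y⟩⟩
  have hφg : (φg : A →⋆ₐ[ℂ] A) = g := by
    ext a
    rfl
  refine h.nolift φg (fun x => ?_) hg4
  rw [hφg]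
  have h1 : K0.map g x = K0.map (prj i0) (K0.map F (K0.map (dia n) x)) := by
    rw [K0.map_comp, K0.map_comp]
    rfl
  rw [h1, hKF, K0.map_comp, K0.map_comp]
  have h2 : ((prj i0).comp (pw (cyc n (Φ : A →⋆ₐ[ℂ] A)) n)).comp (dia n) =
      (Φ : A →⋆ₐ[ℂ] A) := by
    ext a
    show pw (cyc n (Φ : A →⋆ₐ[ℂ] A)) n (dia n a) i0 = _
    rw [cyc_n]
    rfl
  rw [h2]

end Pool.Agent.Y25.PiK0
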