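import Mathlib
import Pool.Agent.H71R2.Frob.RF

set_option autoImplicit false

/-!
The one-relator group `⟨a, t ∣ t² a t⁻² = [a, t a t⁻¹]⟩`: an ascending HNN extension of a free group of
rank two, residually finite but not residually solvable.
-/

namespace Pool.Agent.Y25.Asc

abbrev F2 := FreeGroup (Fin 2)

/-- `t² a t⁻² = [a, t a t⁻¹]` with `a = of 0`, `t = of 1`, `[g, h] = g h g⁻¹ h⁻¹`. -/
def rel : F2 :=
  FreeGroup.of 1 ^ 2 * FreeGroup.of 0 * (FreeGroup.of 1 ^ 2)⁻¹ *
    (FreeGroup.of 0 * (FreeGroup.of 1 * FreeGroup.of 0 * (FreeGroup.of 1)⁻¹) * (FreeGroup.of 0)⁻¹ *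
      (FreeGroup.of 1 * FreeGroup.of 0 * (FreeGroup.of 1)⁻¹)⁻¹)⁻¹

abbrev G : Type := PresentedGroup ({rel} : Set F2)

def a : G := PresentedGroup.of 0
def t : G := PresentedGroup.of 1
def b : G := t * a * t⁻¹

theorem lift_rel {rels : Set F2} {H : Type*} [Group H] (ρ : PresentedGroup rels →* H) {r : F2}
    (hr : r ∈ rels) : FreeGroup.lift (fun i => ρ (PresentedGroup.of i)) r = 1 := by
  have h1 : FreeGroup.lift (fun i => ρ (PresentedGroup.of i)) = ρ.comp (PresentedGroup.mk rels) := by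
    apply FreeGroup.ext_hom
    intro i
    rw [FreeGroup.lift_apply_of]
    rfl
  rw [h1, MonoidHom.comp_apply, PresentedGroup.one_of_mem hr, map_one]

theorem rel_G : t * b * t⁻¹ = a * b * a⁻¹ * b⁻¹ := by
  have h := lift_rel (MonoidHom.id G) (Set.mem_singleton rel)
  simp only [rel, map_mul, map_pow, map_inv, FreeGroup.lift_apply_of] at h
  have h2 := mul_inv_eq_one.1 h
  change t ^ 2 * a * (t ^ 2)⁻¹ = a * b * a⁻¹ * b⁻¹ at h2
  rw [← h2, b, pow_two]
  group

/-- the endomorphism `x ↦ y`, `y ↦ [x, y]` -/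
def φ : F2 →* F2 := FreeGroup.lift ![FreeGroup.of 1,
  FreeGroup.of 0 * FreeGroup.of 1 * (FreeGroup.of 0)⁻¹ * (FreeGroup.of 1)⁻¹]

/-- the shift of the free group on `ℤ` -/
def sh : MulAut (FreeGroup ℤ) := FreeGroup.freeGroupCongr (Equiv.addRight (1 : ℤ))

theorem sh_of (i : ℤ) : sh (FreeGroup.of i) = FreeGroup.of (i + 1) := by
  simp [sh]

def act : Multiplicative ℤ →* MulAut (FreeGroup ℤ) := zpowersHom _ sh

theorem act_one : act (Multiplicative.ofAdd 1) = sh := by
  simp [act]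

theorem φ_injective : Function.Injective φ := by
  let S := FreeGroup ℤ ⋊[act] Multiplicative ℤ
  let ψ : F2 →* S := FreeGroup.lift ![SemidirectProduct.inr (Multiplicative.ofAdd 1),
    SemidirectProduct.inl (FreeGroup.of 0)]
  let lam : F2 →* FreeGroup ℤ := FreeGroup.lift ![FreeGroup.of 0,
    FreeGroup.of 1 * (FreeGroup.of 0)⁻¹]
  let mu : FreeGroup ℤ →* F2 := FreeGroup.lift (fun i => if i = 0 then FreeGroup.of 0 else
    if i = 1 then FreeGroup.of 1 * FreeGroup.of 0 else 1)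
  have h1 : mu.comp lam = MonoidHom.id F2 := by
    apply FreeGroup.ext_hom
    intro i
    fin_cases i
    · simp [lam, mu]
    · simp [lam, mu]
  have h2 : ψ.comp φ = (SemidirectProduct.inl : FreeGroup ℤ →* S).comp lam := by
    apply FreeGroup.ext_hom
    intro i
    fin_cases i
    · simp [ψ, φ, lam]
    · have : (SemidirectProduct.inl (FreeGroup.of (1 : ℤ)) : S) =
          SemidirectProduct.inr (Multiplicative.ofAdd 1) * SemidirectProduct.inl (FreeGroup.of 0) *
            SemidirectProduct.inr (Multiplicative.ofAdd 1)⁻¹ := by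
        rw [← SemidirectProduct.inl_aut, act_one, sh_of, zero_add]
      simp [ψ, φ, lam, this]
  have h3 : Function.Injective lam := by
    intro x y hxy
    have := congrArg mu hxy
    rw [← MonoidHom.comp_apply, ← MonoidHom.comp_apply, h1] at this
    exact this
  have h4 : Function.Injective (ψ.comp φ) := by
    rw [h2]
    exact SemidirectProduct.inl_injective.comp h3
  exact Function.Injective.of_comp h4

/-- the free subgroup `⟨a, t a t⁻¹⟩` -/
def θ : F2 →* G := FreeGroup.lift ![a, b]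

theorem conj_θ (w : F2) : t * θ w * t⁻¹ = θ (φ w) := by
  have h : (MulAut.conj t : G ≃* G).toMonoidHom.comp θ = θ.comp φ := by
    apply FreeGroup.ext_hom
    intro i
    fin_cases i
    · simp [θ, φ, b]
    · simp [θ, φ, rel_G]
  have := congrArg (fun F : F2 →* G => F w) h
  simpa using this

theorem θ_injective : Function.Injective θ := by
  let e : (⊤ : Subgroup F2) ≃* φ.range :=
    Subgroup.topEquiv.trans (MonoidHom.ofInjective φ_injective)
  let E := HNNExtension F2 ⊤ φ.range e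
  have hte : ∀ w : F2, (HNNExtension.t : E) * HNNExtension.of w * (HNNExtension.t)⁻¹ =
      HNNExtension.of (φ w) := by
    intro w
    have := HNNExtension.t_mul_of (φ := e) ⟨w, Subgroup.mem_top w⟩
    rw [mul_inv_eq_iff_eq_mul, this]
    rfl
  have hf : ∀ r ∈ ({rel} : Set F2), FreeGroup.lift
      ![(HNNExtension.of (FreeGroup.of 0) : E), HNNExtension.t] r = 1 := by
    intro r hr
    rw [Set.mem_singleton_iff.1 hr, rel]
    simp only [map_mul, map_pow, map_inv, FreeGroup.lift_apply_of]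
    change (HNNExtension.t : E) ^ 2 * HNNExtension.of (FreeGroup.of 0) * (HNNExtension.t ^ 2)⁻¹ *
      (HNNExtension.of (FreeGroup.of 0) * (HNNExtension.t * HNNExtension.of (FreeGroup.of 0) *
        (HNNExtension.t)⁻¹) * (HNNExtension.of (FreeGroup.of 0))⁻¹ *
      (HNNExtension.t * HNNExtension.of (FreeGroup.of 0) * (HNNExtension.t)⁻¹)⁻¹)⁻¹ = 1
    have e0 := hte (FreeGroup.of 0)
    have e1 := hte (FreeGroup.of 1)
    have f0 : φ (FreeGroup.of 0) = FreeGroup.of 1 := by simp [φ]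
    have f1 : φ (FreeGroup.of 1) =
        FreeGroup.of 0 * FreeGroup.of 1 * (FreeGroup.of 0)⁻¹ * (FreeGroup.of 1)⁻¹ := by simp [φ]
    rw [f0] at e0
    rw [f1] at e1
    have e2 : (HNNExtension.t : E) ^ 2 * HNNExtension.of (FreeGroup.of 0) * (HNNExtension.t ^ 2)⁻¹ =
        HNNExtension.t * (HNNExtension.t * HNNExtension.of (FreeGroup.of 0) * (HNNExtension.t)⁻¹) *
          (HNNExtension.t)⁻¹ := by rw [pow_two]; group
    rw [e2, e0, e1, mul_inv_eq_one]
    simp
  let η : G →* E := PresentedGroup.toGroup hf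
  have ha : η a = HNNExtension.of (FreeGroup.of 0) := PresentedGroup.toGroup.of hf
  have ht : η t = HNNExtension.t := PresentedGroup.toGroup.of hf
  have h : η.comp θ = HNNExtension.of := by
    apply FreeGroup.ext_hom
    intro i
    fin_cases i
    · simpa [θ] using ha
    · have e0 := hte (FreeGroup.of 0)
      have f0 : φ (FreeGroup.of 0) = FreeGroup.of 1 := by simp [φ]
      rw [f0] at e0
      simp [θ, b, ha, ht, e0]
  have h4 : Function.Injective (η.comp θ) := by
    rw [h]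
    exact HNNExtension.of_injective e
  exact Function.Injective.of_comp h4

/-- elements of the ascending union -/
def Q (n : ℕ) (g : G) : Prop := ∃ w : F2, t ^ n * g * (t ^ n)⁻¹ = θ w

theorem Q_succ {n : ℕ} {g : G} (h : Q n g) : Q (n + 1) g := by
  obtain ⟨w, hw⟩ := h
  refine ⟨φ w, ?_⟩
  rw [← conj_θ, ← hw, pow_succ']
  group

theorem Q_mono {m n : ℕ} (hmn : m ≤ n) {g : G} (h : Q m g) : Q n g := by
  induction hmn with
  | refl => exact h
  | step _ ih => exact Q_succ ih

theorem Q_mul {n : ℕ} {g h : G} (hg : Q n g) (hh : Q n h) : Q n (g * h) := by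
  obtain ⟨w, hw⟩ := hg
  obtain ⟨v, hv⟩ := hh
  refine ⟨w * v, ?_⟩
  rw [map_mul, ← hw, ← hv]
  group

theorem Q_inv {n : ℕ} {g : G} (hg : Q n g) : Q n g⁻¹ := by
  obtain ⟨w, hw⟩ := hg
  refine ⟨w⁻¹, ?_⟩
  rw [map_inv, ← hw]
  group

/-- conjugation by powers of `t` -/
theorem Q_conj {n : ℕ} {g : G} (hg : Q n g) (m : ℤ) : ∃ k, Q k (t ^ m * g * (t ^ m)⁻¹) := by
  induction m using Int.induction_on with
  | zero => exact ⟨n, by simpa using hg⟩
  | succ i ih =>
    obtain ⟨k, w, hw⟩ := ih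
    refine ⟨k, φ w, ?_⟩
    rw [← conj_θ, ← hw]
    group
  | pred i ih =>
    obtain ⟨k, w, hw⟩ := ih
    refine ⟨k + 1, w, ?_⟩
    rw [← hw]
    group

theorem exists_Q (g : G) : ∃ (m : ℤ) (n : ℕ), Q n (g * (t ^ m)⁻¹) := by
  have hg : g ∈ Subgroup.closure (Set.range (PresentedGroup.of (rels := {rel}))) := by
    rw [PresentedGroup.closure_range_of]; trivial
  induction hg using Subgroup.closure_induction with
  | mem x hx =>
    obtain ⟨i, rfl⟩ := hx
    fin_cases i
    · refine ⟨0, 0, FreeGroup.of 0, ?_⟩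
      change t ^ 0 * (a * (t ^ (0 : ℤ))⁻¹) * (t ^ 0)⁻¹ = _
      simp [θ]
    · refine ⟨1, 0, 1, ?_⟩
      change t ^ 0 * (t * (t ^ (1 : ℤ))⁻¹) * (t ^ 0)⁻¹ = _
      simp
  | one => exact ⟨0, 0, 1, by simp⟩
  | mul x y _ _ hx hy =>
    obtain ⟨m, n, hx⟩ := hx
    obtain ⟨m', n', hy⟩ := hy
    obtain ⟨k, hk⟩ := Q_conj hy m
    refine ⟨m + m', max n k, ?_⟩
    have h1 := Q_mul (Q_mono (le_max_left n k) hx) (Q_mono (le_max_right n k) hk)
    have e : x * (t ^ m)⁻¹ * (t ^ m * (y * (t ^ m')⁻¹) * (t ^ m)⁻¹) =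
        x * y * (t ^ (m + m'))⁻¹ := by
      rw [zpow_add]
      have : (t ^ m)⁻¹ * (t ^ m')⁻¹ = (t ^ m')⁻¹ * (t ^ m)⁻¹ := by
        rw [← mul_inv_rev, ← mul_inv_rev, ← zpow_add, ← zpow_add, add_comm]
      rw [mul_inv_rev]
      group
    rw [e] at h1
    exact h1
  | inv x _ hx =>
    obtain ⟨m, n, hx⟩ := hx
    obtain ⟨k, hk⟩ := Q_conj (Q_inv hx) (-m)
    refine ⟨-m, k, ?_⟩
    have e : t ^ (-m) * (x * (t ^ m)⁻¹)⁻¹ * (t ^ (-m))⁻¹ = x⁻¹ * (t ^ (-m))⁻¹ := by
      group
    rw [e] at hk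
    exact hk

theorem exists_χ : ∃ χ : G →* Multiplicative ℤ, χ a = 1 ∧ χ t = Multiplicative.ofAdd 1 := by
  have hf : ∀ r ∈ ({rel} : Set F2), FreeGroup.lift
      ![(1 : Multiplicative ℤ), Multiplicative.ofAdd 1] r = 1 := by
    intro r hr
    rw [Set.mem_singleton_iff.1 hr, rel]
    simp
  exact ⟨PresentedGroup.toGroup hf, PresentedGroup.toGroup.of hf, PresentedGroup.toGroup.of hf⟩

theorem χ_Q {χ : G →* Multiplicative ℤ} (ha : χ a = 1)
    {n : ℕ} {g : G} (h : Q n g) : χ g = 1 := by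
  obtain ⟨w, hw⟩ := h
  have h1 : χ.comp θ = 1 := by
    apply FreeGroup.ext_hom
    intro i
    fin_cases i
    · simp [θ, ha]
    · simp [θ, b, ha]
  have h2 := congrArg χ hw
  have h3 : χ (θ w) = 1 := congrArg (fun F : F2 →* Multiplicative ℤ => F w) h1
  rw [h3, map_mul, map_mul, map_inv, mul_comm (χ (t ^ n)), mul_assoc, mul_inv_cancel, mul_one] at h2
  exact h2

theorem ker_Q {χ : G →* Multiplicative ℤ} (ha : χ a = 1) (ht : χ t = Multiplicative.ofAdd 1)
    {g : G} (hg : χ g = 1) : ∃ n, Q n g := by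
  obtain ⟨m, n, hQ⟩ := exists_Q g
  have h1 := χ_Q ha hQ
  rw [map_mul, hg, one_mul, map_inv, inv_eq_one, map_zpow, ht, ← ofAdd_zsmul] at h1
  have h2 : m = 0 := by simpa using h1
  subst h2
  exact ⟨n, by simpa using hQ⟩

theorem ker_locallyFree {χ : G →* Multiplicative ℤ} (ha : χ a = 1)
    (ht : χ t = Multiplicative.ofAdd 1) (H : Subgroup G) (hH : H ≤ χ.ker) (hfg : H.FG) :
    IsFreeGroup H := by
  classical
  obtain ⟨S, rfl⟩ := hfg
  have h1 : ∀ s ∈ S, ∃ n, Q n s := fun s hs =>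
    ker_Q ha ht (hH (Subgroup.subset_closure hs))
  choose! f hf using h1
  let N := S.sup f
  have h2 : ∀ g ∈ Subgroup.closure (S : Set G), Q N g := by
    intro g hg
    induction hg using Subgroup.closure_induction with
    | mem x hx => exact Q_mono (Finset.le_sup hx) (hf x hx)
    | one => exact ⟨1, by simp⟩
    | mul x y _ _ hx hy => exact Q_mul hx hy
    | inv x _ hx => exact Q_inv hx
  -- embed in a free group
  let c : G ≃* G := MulAut.conj (t ^ N)
  let H' := Subgroup.closure (S : Set G)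
  have h3 : ∀ g : H', c g ∈ θ.range := by
    intro g
    obtain ⟨w, hw⟩ := h2 g.1 g.2
    exact ⟨w, hw.symm⟩
  let κ : H' →* θ.range := (c.toMonoidHom.comp H'.subtype).codRestrict θ.range h3
  have hκ : Function.Injective κ := by
    intro x y hxy
    have := congrArg Subtype.val hxy
    exact Subtype.ext (c.injective this)
  have hfree : IsFreeGroup θ.range := IsFreeGroup.ofMulEquiv (MonoidHom.ofInjective θ_injective)
  have hfree2 : IsFreeGroup κ.range := inferInstance
  exact IsFreeGroup.ofMulEquiv (MonoidHom.ofInjective hκ).symm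

theorem a_ne_one : a ≠ 1 := by
  intro h
  have h1 : θ (FreeGroup.of 0) = θ 1 := by
    rw [map_one, ← h]
    simp [θ]
  have h2 := θ_injective h1
  exact FreeGroup.of_ne_one 0 h2

theorem a_mem (k : ℕ) : a ∈ derivedSeries G k := by
  induction k with
  | zero => simp
  | succ k ih =>
    have hn : (derivedSeries G k).Normal := inferInstance
    have hb : b ∈ derivedSeries G k := hn.conj_mem a ih t
    have hc : a * b * a⁻¹ * b⁻¹ ∈ derivedSeries G (k + 1) := by
      rw [derivedSeries_succ]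
      exact Subgroup.commutator_mem_commutator ih hb
    rw [← rel_G] at hc
    have hn' : (derivedSeries G (k + 1)).Normal := inferInstance
    have h1 := hn'.conj_mem _ hc (t⁻¹ * t⁻¹)
    have e : t⁻¹ * t⁻¹ * (t * b * t⁻¹) * (t⁻¹ * t⁻¹)⁻¹ = a := by
      rw [b]; group
    rwa [e] at h1

theorem rf (g : G) (hg : g ≠ 1) : ∃ N : Subgroup G, N.Normal ∧ N.FiniteIndex ∧ g ∉ N := by
  obtain ⟨χ, ha, ht⟩ := exists_χ
  have hsurj : Function.Surjective χ := by
    intro m
    refine ⟨t ^ (Multiplicative.toAdd m), ?_⟩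
    rw [map_zpow, ht, ← ofAdd_zsmul]
    simp
  have hlef := Pool.Agent.H71R2.Frob.lef_of_locallyFree_by_Z χ hsurj
    (fun H hH hfg => ker_locallyFree ha ht H hH hfg)
  have h1 : Group.ResiduallyFinite G := Pool.Agent.H71R2.Lef.rf_of_lef_of_fp hlef
  obtain ⟨N, hN⟩ : ∃ N : FiniteIndexNormalSubgroup G, g ∉ N.toSubgroup := by
    by_contra hcon
    push Not at hcon
    have h2 : g ∈ ⨅ H : FiniteIndexNormalSubgroup G, H.toSubgroup :=
      Subgroup.mem_iInf.2 hcon
    rw [h1.iInf_eq_bot] at h2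
    exact hg (Subgroup.mem_bot.1 h2)
  exact ⟨N.toSubgroup, N.isNormal', N.isFiniteIndex', hN⟩

end Pool.Agent.Y25.Asc
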